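import Mathlib
import Pool.Agent.Q91.TakagiC

/-!
# Level sets of generalized Takagi functions are finite for almost every ordinate

For every `f` in the class `T_v` the occupation measure of `f` is singular: almost every point lies
in arbitrarily long chains of nested zero-slope dyadic intervals, and each link of a chain crosses
the height of the point in its right half.  At almost every height the density of the occupation
measure is zero, so only finitely many zero-slope dyadic intervals reach it, and then the level set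
is finite.
-/

open Set Filter Topology MeasureTheory
open scoped ENNReal

namespace Pool.Agent.Results.MP_cc494f_an.FiniteLevels

open Q91.Takagi

variable {ω : ℕ → ℝ → ℝ}

/-! ### Measurability -/

/-- The terms, as measurable functions on the line. -/
noncomputable def tm (ω : ℕ → ℝ → ℝ) (n : ℕ) (x : ℝ) : ℝ :=
  (1 / 2 : ℝ) ^ n * (w ω n ⌊2 ^ n * x⌋₊ : ℝ) * phi (2 ^ n * x)

lemma measurable_phi : Measurable phi := by
  have h : phi = fun x => min (Int.fract x) (1 - Int.fract x) := by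
    funext x
    exact abs_sub_round_eq_min x
  rw [h]
  exact measurable_fract.min (measurable_const.sub measurable_fract)

lemma measurable_tm (n : ℕ) : Measurable (tm ω n) := by
  unfold tm
  have h1 : Measurable fun x : ℝ => ⌊(2 : ℝ) ^ n * x⌋₊ :=
    Nat.measurable_floor.comp (measurable_id.const_mul _)
  have h2 : Measurable fun x : ℝ => (w ω n ⌊2 ^ n * x⌋₊ : ℝ) :=
    (Measurable.of_discrete (f := fun k : ℕ => ((w ω n k : ℤ) : ℝ))).comp h1
  exact (h2.const_mul _).mul (measurable_phi.comp (measurable_id.const_mul _))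

lemma abs_tm (n : ℕ) (x : ℝ) : ‖tm ω n x‖ ≤ (1 / 2 : ℝ) ^ n * (1 / 2) := by
  unfold tm
  rw [Real.norm_eq_abs, abs_mul, abs_mul, abs_of_nonneg (phi_nonneg _),
    abs_of_pos (by positivity : (0 : ℝ) < (1 / 2) ^ n)]
  have h1 : |(w ω n ⌊2 ^ n * x⌋₊ : ℝ)| = 1 := by
    rcases w_cases (ω := ω) n ⌊2 ^ n * x⌋₊ with h | h <;> rw [h] <;> norm_num
  rw [h1, mul_one]
  exact mul_le_mul_of_nonneg_left (phi_le _) (by positivity)

lemma summable_tm (x : ℝ) : Summable fun n => tm ω n x :=
  Summable.of_norm_bounded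
    ((summable_geometric_of_lt_one (by norm_num) (by norm_num)).mul_right _) fun n => abs_tm n x

lemma aemeasurable_takagi (hω : IsSigns ω) :
    AEMeasurable (takagi ω) (volume.restrict (Icc (0 : ℝ) 1)) := by
  refine ⟨fun x => ∑' n, tm ω n x, ?_, ?_⟩
  · refine measurable_of_tendsto_metrizable (f := fun n x => ∑ k ∈ Finset.range n, tm ω k x)
      (fun n => Finset.measurable_fun_sum _ fun k _ => measurable_tm k) ?_
    rw [tendsto_pi_nhds]
    exact fun x => (summable_tm x).hasSum.tendsto_sum_nat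
  · rw [Filter.EventuallyEq, ae_restrict_iff' measurableSet_Icc]
    have h1 : ∀ᵐ x : ℝ, x ∉ ({1} : Set ℝ) := (Set.countable_singleton 1).ae_notMem _
    filter_upwards [h1] with x hx h01
    have h01' : x ∈ Ico (0 : ℝ) 1 := ⟨h01.1, lt_of_le_of_ne h01.2 hx⟩
    have e : takagi ω x = ∑' n, term ω n x := rfl
    rw [e]
    congr 1
    funext n
    obtain ⟨h2, h3⟩ := mem_floor h01' n
    exact term_eq hω h2 (oI_sub_cI _ _ h3)

/-! ### The occupation measure -/

/-- The occupation measure. -/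
noncomputable def occ (ω : ℕ → ℝ → ℝ) : Measure ℝ :=
  (volume.restrict (Icc (0 : ℝ) 1)).map (takagi ω)

instance : IsFiniteMeasure (occ ω) := by
  unfold occ
  infer_instance

lemma occ_ball (hω : IsSigns ω) (y r : ℝ) : occ ω (Metric.closedBall y r) =
    volume {x ∈ Icc (0 : ℝ) 1 | |takagi ω x - y| ≤ r} := by
  unfold occ
  rw [Measure.map_apply_of_aemeasurable (aemeasurable_takagi hω) Metric.isClosed_closedBall.measurableSet,
    Measure.restrict_apply' measurableSet_Icc]
  congr 1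
  ext x
  simp only [mem_inter_iff, mem_preimage, Metric.mem_closedBall, Real.dist_eq, Set.mem_ofPred_eq]
  exact and_comm

/-- The occupation measure is singular. -/
lemma occ_singular (hω : IsSigns ω) : occ ω ⟂ₘ volume := by
  obtain ⟨Good, hGood⟩ : ∃ G : Set ℝ, G = {y | Tendsto (fun r => occ ω (Metric.closedBall y r) /
    volume (Metric.closedBall y r)) (𝓝[>] 0) (𝓝 ((occ ω).rnDeriv volume y)) ∧
      (occ ω).rnDeriv volume y < ⊤} := ⟨_, rfl⟩
  have hG0 : volume Goodᶜ = 0 := by
    have h1 : ∀ᵐ y : ℝ, y ∈ Good := by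
      filter_upwards [Besicovitch.ae_tendsto_rnDeriv (occ ω) volume,
        Measure.rnDeriv_lt_top (occ ω) volume] with y h2 h3
      rw [hGood]
      exact ⟨h2, h3⟩
    exact h1
  obtain ⟨T, hT⟩ : ∃ T : Set ℝ, T = toMeasurable volume Goodᶜ := ⟨_, rfl⟩
  have hTm : MeasurableSet T := by rw [hT]; exact measurableSet_toMeasurable _ _
  have hT0 : volume T = 0 := by rw [hT, measure_toMeasurable, hG0]
  have hsub : Goodᶜ ⊆ T := by rw [hT]; exact subset_toMeasurable _ _
  refine ⟨Tᶜ, hTm.compl, ?_, by rw [compl_compl]; exact hT0⟩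
  have h1 : ∀ᵐ x : ℝ, ∀ K N : ℕ, x ∈ Ico (0 : ℝ) 1 → ∃ n', N ≤ n' ∧
      ENNReal.ofReal (cc K * (1 / 2) ^ n') ≤
        volume {x' ∈ Icc (0 : ℝ) 1 | |takagi ω x' - takagi ω x| ≤ (1 / 2) ^ n'} := by
    rw [ae_all_iff]
    intro K
    rw [ae_all_iff]
    intro N
    exact ae_dense hω K N
  have h2 : ∀ᵐ x : ℝ, x ∉ ({1} : Set ℝ) := (Set.countable_singleton 1).ae_notMem _
  unfold occ
  rw [Measure.map_apply_of_aemeasurable (aemeasurable_takagi hω) hTm.compl,
    Measure.restrict_apply' measurableSet_Icc, measure_eq_zero_iff_ae_notMem]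
  filter_upwards [h1, h2] with x hx hx1 hmem
  obtain ⟨hxT, h01⟩ := hmem
  have hgood : takagi ω x ∈ Good := by
    by_contra hcon
    exact hxT (hsub hcon)
  rw [hGood] at hgood
  obtain ⟨hlim, hfin⟩ := hgood
  have h01' : x ∈ Ico (0 : ℝ) 1 := ⟨h01.1, lt_of_le_of_ne h01.2 hx1⟩
  obtain ⟨L, hL⟩ : ∃ L, L = (occ ω).rnDeriv volume (takagi ω x) := ⟨_, rfl⟩
  rw [← hL] at hlim hfin
  obtain ⟨K, hK⟩ := (tendsto_cc.eventually_gt_atTop (2 * (L.toReal + 1))).exists
  have hlt : L < ENNReal.ofReal (L.toReal + 1) := by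
    rw [ENNReal.lt_ofReal_iff_toReal_lt hfin.ne]
    linarith
  have hev := hlim.eventually (gt_mem_nhds hlt)
  rw [eventually_nhdsWithin_iff, Metric.eventually_nhds_iff] at hev
  obtain ⟨δ, hδ, hev⟩ := hev
  obtain ⟨N, hN⟩ := exists_pow_lt_of_lt_one hδ (by norm_num : (1 / 2 : ℝ) < 1)
  obtain ⟨n', hn', hvol⟩ := hx K N h01'
  have hpow : (0 : ℝ) < (1 / 2) ^ n' := by positivity
  have h3 : (1 / 2 : ℝ) ^ n' < δ :=
    (pow_le_pow_of_le_one (by norm_num) (by norm_num) hn').trans_lt hN
  have h4 := @hev ((1 / 2) ^ n') (by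
    rw [Real.dist_eq, sub_zero, abs_of_pos hpow]; exact h3) hpow
  rw [occ_ball hω, Real.volume_closedBall, ENNReal.div_lt_iff
    (Or.inl (ENNReal.ofReal_pos.2 (by positivity)).ne') (Or.inl ENNReal.ofReal_ne_top)] at h4
  have h5 := hvol.trans_lt h4
  rw [← ENNReal.ofReal_mul (by positivity)] at h5
  have h6 := (ENNReal.ofReal_lt_ofReal_iff (by positivity)).1 h5
  nlinarith

/-- **Q1, positive answer**, in terms of the helper definitions. -/
theorem ae_finite (hω : IsSigns ω) :
    ∀ᵐ y : ℝ, {x ∈ Icc (0 : ℝ) 1 | takagi ω x = y}.Finite := by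
  have hD : (⋃ n : ℕ, range (F ω n)).Countable := countable_iUnion fun n => countable_range _
  filter_upwards [Besicovitch.ae_tendsto_rnDeriv (occ ω) volume,
    (occ_singular hω).rnDeriv_ae_eq_zero, hD.ae_notMem _] with y h1 h2 h3
  rw [h2] at h1
  have hlt : (0 : ℝ≥0∞) < ENNReal.ofReal (1 / 4) := ENNReal.ofReal_pos.2 (by norm_num)
  have hev := h1.eventually (gt_mem_nhds hlt)
  rw [eventually_nhdsWithin_iff, Metric.eventually_nhds_iff] at hev
  obtain ⟨δ, hδ, hev⟩ := hev
  obtain ⟨N, hN⟩ := exists_pow_lt_of_lt_one (half_pos hδ) (by norm_num : (1 / 2 : ℝ) < 1)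
  refine finite_of (N := N) hω ?_ ?_
  · intro n hn j hj h0 x hx hxy
    have hpow : (0 : ℝ) < (1 / 2) ^ n := by positivity
    have h4 : (1 / 2 : ℝ) ^ n < δ / 2 :=
      (pow_le_pow_of_le_one (by norm_num) (by norm_num) hn).trans_lt hN
    have h5 := @hev (2 * (1 / 2) ^ n) (by
      rw [Real.dist_eq, sub_zero, abs_of_pos (by positivity)]; linarith)
      (by have : (0 : ℝ) < 2 * (1 / 2) ^ n := by positivity
          exact this)
    rw [occ_ball hω, Real.volume_closedBall, ENNReal.div_lt_iff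
      (Or.inl (ENNReal.ofReal_pos.2 (by positivity)).ne') (Or.inl ENNReal.ofReal_ne_top)] at h5
    have h6 : cI n j ⊆ {x' ∈ Icc (0 : ℝ) 1 | |takagi ω x' - y| ≤ 2 * (1 / 2) ^ n} := by
      intro x' hx'
      refine ⟨Icc_sub hj hx', ?_⟩
      have h7 := takagi_near' hω hj hx'
      have h8 := takagi_near' hω hj hx
      rw [h0, Int.cast_zero, abs_zero, zero_add, one_mul, abs_le] at h7 h8
      rw [← hxy, abs_le]
      constructor <;> linarith [h7.1, h7.2, h8.1, h8.2]
    have h7 := (measure_mono h6).trans_lt h5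
    rw [volume_cI, ← ENNReal.ofReal_mul (by norm_num)] at h7
    have h8 := (ENNReal.ofReal_lt_ofReal_iff (by positivity)).1 h7
    linarith
  · intro n j _ h
    exact h3 (mem_iUnion.2 ⟨n, j, h⟩)

/-- The signs of the Gray Takagi function: the Rademacher functions `(-1)^⌊2^n x⌋`. -/
noncomputable def gray : ℕ → ℝ → ℝ := fun n x => (-1 : ℝ) ^ ⌊(2 : ℝ) ^ n * x⌋

lemma isSigns_gray : IsSigns gray := by
  refine ⟨fun n x _ => ?_, fun n j _ x hx y hy => ?_⟩
  · unfold gray
    rcases Int.even_or_odd ⌊(2 : ℝ) ^ n * x⌋ with h | h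
    · exact Or.inl h.neg_one_zpow
    · exact Or.inr h.neg_one_zpow
  · have h : ∀ z ∈ Ico ((j : ℝ) / 2 ^ n) (((j : ℝ) + 1) / 2 ^ n), ⌊(2 : ℝ) ^ n * z⌋ = (j : ℤ) := by
      intro z hz
      have := (mem_oI (n := n) (j := j) (x := z)).1 hz
      rw [Int.floor_eq_iff]
      push_cast
      exact this
    unfold gray
    rw [h x hx, h y hy]

/-- **Q1 and Q2, positive answers**: for every `f` in the class `T_v` the level set of `f` is
finite for Lebesgue almost every ordinate; in particular this holds for the Gray Takagi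
function. -/
theorem result :
    (∀ ω : ℕ → ℝ → ℝ, IsSigns ω →
      ∀ᵐ y ∂(volume : Measure ℝ), {x ∈ Icc (0 : ℝ) 1 | takagi ω x = y}.Finite) ∧
    (IsSigns gray ∧
      ∀ᵐ y ∂(volume : Measure ℝ), {x ∈ Icc (0 : ℝ) 1 | takagi gray x = y}.Finite) :=
  ⟨fun _ hω => ae_finite hω, isSigns_gray, ae_finite isSigns_gray⟩

end Pool.Agent.Results.MP_cc494f_an.FiniteLevels
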